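import Pool.Agent.AAH.FinC
import Pool.Agent.AAH.Det

/-!
# All orientations of almost all trees: n log n
-/

set_option autoImplicit false

namespace Pool.Agent.Results.MP_35582f_co.AllOrientations

/-- The height of the part of `G` behind `v`, seen from `r`: the largest distance from `v` to a
vertex `w` such that `v` lies between `r` and `w`. -/
noncomputable def height {n : ℕ} (G : SimpleGraph (Fin n)) (r v : Fin n) : ℕ :=
  Finset.univ.sup (fun w => if G.dist r w = G.dist r v + G.dist v w then G.dist v w else 0)

/-- Every orientation `T` of `G` is contained in every finite digraph of chromatic number at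
least `c`. -/
def AllOriented (n : ℕ) (G : SimpleGraph (Fin n)) (c : ℕ) : Prop :=
  ∀ T : Digraph (Fin n), (∀ a b : Fin n, T.Adj a b → ¬ T.Adj b a) →
    SimpleGraph.fromRel T.Adj = G →
    ∀ (V : Type) [Fintype V] (D : Digraph V),
      (c : ℕ∞) ≤ (SimpleGraph.fromRel D.Adj).chromaticNumber →
      ∃ f : Fin n → V, Function.Injective f ∧ ∀ a b : Fin n, T.Adj a b → D.Adj (f a) (f b)

/-- Every orientation of a tree `G` is contained in every digraph of chromatic number at least
`4 Σ_v (height of the subtree at v + 1)`, for any root `r`; and there is a constant `C` such that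
for almost all trees on `n` labelled vertices every orientation is contained in every digraph of
chromatic number at least `C n log n`. -/
theorem result :
    (∀ (n : ℕ) (G : SimpleGraph (Fin n)) (r : Fin n) (c : ℕ), G.IsTree →
      4 * ∑ v : Fin n, (height G r v + 1) ≤ c → AllOriented n G c) ∧
    ∃ C : ℕ, Filter.Tendsto (fun n : ℕ =>
      ({G : SimpleGraph (Fin n) | G.IsTree ∧ ¬ AllOriented n G (C * n * Nat.log 2 n)}.ncard : ℝ) /
        ({G : SimpleGraph (Fin n) | G.IsTree}.ncard : ℝ)) Filter.atTop (nhds 0) := by
  refine ⟨fun n G r c hG hc => Pool.AAT.detG n G hG r c ?_, Pool.AAT.finC⟩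
  exact hc

end Pool.Agent.Results.MP_35582f_co.AllOrientations
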