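import Pool.Agent.AAT.FinA
import Pool.Agent.AAT.ChainG

/-!
# Almost all oriented trees are contained in all digraphs of linear chromatic number
-/

set_option autoImplicit false

namespace Pool.Agent.Results.MP_35582f_co.AlmostAllTrees

/-- Oriented trees on the vertex set `Fin n`. -/
def OrientedTree (n : ℕ) (T : Digraph (Fin n)) : Prop :=
  (∀ a b : Fin n, T.Adj a b → ¬ T.Adj b a) ∧ (SimpleGraph.fromRel T.Adj).IsTree

/-- `T` is contained in every finite digraph of chromatic number at least `c`. -/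
def ContainedIn (n : ℕ) (T : Digraph (Fin n)) (c : ℕ) : Prop :=
  ∀ (V : Type) [Fintype V] (D : Digraph V),
    (c : ℕ∞) ≤ (SimpleGraph.fromRel D.Adj).chromaticNumber →
    ∃ f : Fin n → V, Function.Injective f ∧ ∀ a b : Fin n, T.Adj a b → D.Adj (f a) (f b)

/-- `T` has a chain of subtrees of total cost at most `c - 1`: `{r} = X 0 ⊆ X 1 ⊆ … ⊆ X m = V(T)`,
where the step from `X (i-1)` to `X i` costs `(a + b) (4 |X i| - 7)` if the height of each vertex
of `X i`, relative to the nearest vertex of `X (i-1)`, lies in `[-a, b]`, or `4 |X i| - 6` if all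
new vertices are adjacent to `X (i-1)` (heights: `h b = h a + 1` for every arc `(a, b)`). -/
def HasChain (n : ℕ) (T : Digraph (Fin n)) (c : ℕ) : Prop :=
  ∃ (h : Fin n → ℤ) (m : ℕ) (X : ℕ → Set (Fin n)) (r : Fin n) (w : ℕ → ℕ),
    (∀ a b, T.Adj a b → h b = h a + 1) ∧ X 0 = {r} ∧ X m = Set.univ ∧
    (∀ i < m, X i ⊆ X (i + 1)) ∧
    (∀ i ≤ m, ((SimpleGraph.fromRel T.Adj).induce (X i)).Connected) ∧
    (∀ i, 1 ≤ i → i ≤ m →
      (∃ a b : ℕ, (∀ u ∈ X i, ∀ x ∈ X (i - 1),
          (∀ y ∈ X (i - 1), (SimpleGraph.fromRel T.Adj).dist u x ≤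
            (SimpleGraph.fromRel T.Adj).dist u y) → h x - a ≤ h u ∧ h u ≤ h x + b) ∧
        (a + b) * (4 * (X i).ncard - 7) ≤ w i) ∨
      ((∀ u ∈ X i, u ∉ X (i - 1) → ∃ x ∈ X (i - 1), (SimpleGraph.fromRel T.Adj).Adj u x) ∧
        4 * (X i).ncard - 6 ≤ w i)) ∧
    ∑ i ∈ Finset.Icc 1 m, w i + 1 ≤ c

/-- Every digraph of chromatic number at least the cost of some chain of subtrees of the oriented
tree `T` contains `T`; and there is an absolute constant `C` such that almost all oriented trees on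
`n` labelled vertices have a chain of cost at most `C n`, so that they are contained in all
digraphs of chromatic number at least `C n`. -/
theorem result :
    (∀ (n : ℕ) (T : Digraph (Fin n)) (c : ℕ), OrientedTree n T → HasChain n T c →
      ContainedIn n T c) ∧
    ∃ C : ℕ, Filter.Tendsto (fun n : ℕ =>
      ({T : Digraph (Fin n) | OrientedTree n T ∧
          ¬ (HasChain n T (C * n) ∧ ContainedIn n T (C * n))}.ncard : ℝ) /
        ({T : Digraph (Fin n) | OrientedTree n T}.ncard : ℝ)) Filter.atTop (nhds 0) := by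
  have h1 : ∀ (n : ℕ) (T : Digraph (Fin n)) (c : ℕ), OrientedTree n T → HasChain n T c →
      ContainedIn n T c := fun n T c hT hc => Pool.AAT.chainG n T hT c hc
  refine ⟨h1, ?_⟩
  obtain ⟨C, hC⟩ := Pool.AAT.finA
  refine ⟨C, ?_⟩
  have h2 : ∀ n : ℕ, {T : Digraph (Fin n) | OrientedTree n T ∧
      ¬ (HasChain n T (C * n) ∧ ContainedIn n T (C * n))} =
      {T : Digraph (Fin n) | Pool.AAT.OTree n T ∧ ¬ Pool.AAT.ChainBound n T (C * n)} := by
    intro n
    ext T
    constructor
    · rintro ⟨hT, hn⟩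
      exact ⟨hT, fun hc => hn ⟨hc, h1 n T _ hT hc⟩⟩
    · rintro ⟨hT, hn⟩
      exact ⟨hT, fun hc => hn hc.1⟩
  simp only [h2]
  exact hC

end Pool.Agent.Results.MP_35582f_co.AlmostAllTrees
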